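import Mathlib

set_option autoImplicit false

/-! Continuous Kronecker theorem, by Bohr's argument. -/

namespace Pool.Agent.P41eeb1

open Finset

/-- A coefficient of a trigonometric polynomial with distinct frequencies is bounded by any
bound of the polynomial. -/
theorem coeff_le {M : Type} [DecidableEq M] (lam : M → ℝ) (m0 : M) (C : ℝ) (S : Finset M)
    (hS : m0 ∉ S) (hinj : ∀ m ∈ S, lam m ≠ lam m0) (A : M → ℂ)
    (hb : ∀ x : ℝ, ‖A m0 * Circle.exp (lam m0 * x) + ∑ m ∈ S, A m * Circle.exp (lam m * x)‖ ≤ C) :
    ‖A m0‖ ≤ C := by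
  induction S using Finset.induction_on generalizing A with
  | empty =>
    have := hb 0
    simpa using this
  | insert n S hn ih =>
    have hne : lam n ≠ lam m0 := hinj n (mem_insert_self _ _)
    have hm0n : m0 ≠ n := by
      rintro rfl
      exact hne rfl
    have hsub : lam n - lam m0 ≠ 0 := sub_ne_zero.2 hne
    set t : ℝ := Real.pi / (lam n - lam m0) with ht
    -- averaged polynomial
    let A' : M → ℂ := fun m =>
      A m * ((1 / 2 : ℂ) * (1 + Circle.exp ((lam m - lam m0) * t)))
    have hA0 : A' m0 = A m0 := by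
      simp only [A', sub_self, zero_mul, Circle.exp_zero, Circle.coe_one]
      ring
    have hAn : A' n = 0 := by
      have : (lam n - lam m0) * t = Real.pi := by
        rw [ht]; field_simp
      simp only [A', this]
      rw [Circle.coe_exp, Complex.exp_pi_mul_I]
      ring
    rw [← hA0]
    refine ih (fun h => hS (mem_insert_of_mem h)) (fun m hm => hinj m (mem_insert_of_mem hm)) A' ?_
    intro x
    have key : A' m0 * Circle.exp (lam m0 * x) + ∑ m ∈ S, A' m * Circle.exp (lam m * x)
        = (1 / 2 : ℂ) * ((A m0 * Circle.exp (lam m0 * x)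
            + ∑ m ∈ insert n S, A m * Circle.exp (lam m * x))
          + Circle.exp (-(lam m0 * t)) * (A m0 * Circle.exp (lam m0 * (x + t))
            + ∑ m ∈ insert n S, A m * Circle.exp (lam m * (x + t)))) := by
      have h1 : ∀ m, A' m * Circle.exp (lam m * x)
          = (1 / 2 : ℂ) * (A m * Circle.exp (lam m * x)
            + Circle.exp (-(lam m0 * t)) * (A m * Circle.exp (lam m * (x + t)))) := by
        intro m
        have h2 : (Circle.exp (lam m * (x + t)) : ℂ)
            = Circle.exp (lam m * x) * Circle.exp (lam m * t) := by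
          rw [mul_add, Circle.exp_add, Circle.coe_mul]
        have h3 : (Circle.exp ((lam m - lam m0) * t) : ℂ)
            = Circle.exp (lam m * t) * Circle.exp (-(lam m0 * t)) := by
          rw [sub_mul, sub_eq_add_neg, Circle.exp_add, Circle.coe_mul]
        simp only [A']
        rw [h2, h3]
        ring
      have h4 : A' m0 * Circle.exp (lam m0 * x) + ∑ m ∈ S, A' m * Circle.exp (lam m * x)
          = A' m0 * Circle.exp (lam m0 * x) + ∑ m ∈ insert n S, A' m * Circle.exp (lam m * x) := by
        rw [sum_insert hn, hAn, zero_mul, zero_add]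
      rw [h4, h1 m0, sum_congr rfl fun m _ => h1 m, ← mul_sum, sum_add_distrib, ← mul_sum]
      ring
    rw [key]
    calc ‖(1 / 2 : ℂ) * ((A m0 * Circle.exp (lam m0 * x)
            + ∑ m ∈ insert n S, A m * Circle.exp (lam m * x))
          + Circle.exp (-(lam m0 * t)) * (A m0 * Circle.exp (lam m0 * (x + t))
            + ∑ m ∈ insert n S, A m * Circle.exp (lam m * (x + t))))‖
        ≤ (1 / 2) * (C + 1 * C) := by
          rw [norm_mul]
          have : ‖(1 / 2 : ℂ)‖ = 1 / 2 := by norm_num
          rw [this]
          refine mul_le_mul_of_nonneg_left ?_ (by norm_num)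
          refine (norm_add_le _ _).trans (add_le_add (hb x) ?_)
          rw [norm_mul, Circle.norm_coe, one_mul, one_mul]
          exact hb (x + t)
      _ = C := by ring

/-- Kronecker's theorem, continuous version. -/
theorem kronecker {ι : Type} [Fintype ι] (c : ι → ℝ)
    (hc : ∀ m : ι → ℤ, ∑ i, (m i : ℝ) * c i = 0 → m = 0) (z : ι → Circle) (ε : ℝ) (hε : 0 < ε) :
    ∃ x : ℝ, ∀ i, ‖(Circle.exp (c i * x) : ℂ) - z i‖ < ε := by
  classical
  by_contra hcon
  push Not at hcon
  set k : ℕ := Fintype.card ι with hk
  -- the functions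
  let w : Option ι → Circle := fun j => j.elim 1 fun i => (z i)⁻¹
  let d : Option ι → ℝ := fun j => j.elim 0 c
  let v : ℝ → Option ι → ℂ := fun x j => w j * Circle.exp (d j * x)
  have hvn : ∀ x j, ‖v x j‖ = 1 := by
    intro x j
    simp only [v]
    rw [norm_mul, Circle.norm_coe, Circle.norm_coe, one_mul]
  set ρ : ℝ := Real.sqrt (4 - ε ^ 2) with hρ
  have hρ2 : ρ < 2 := by
    rw [hρ, Real.sqrt_lt' (by norm_num)]
    nlinarith
  have hρ0 : 0 ≤ ρ := Real.sqrt_nonneg _
  have hρk : ∀ i : ι, 1 ≤ k := fun i => Fintype.card_pos_iff.2 ⟨i⟩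
  have hkpos : 1 ≤ k := by
    obtain ⟨i, _⟩ := hcon 0
    exact hρk i
  have hF : ∀ x, ‖∑ j, v x j‖ ≤ ρ + (k - 1) := by
    intro x
    obtain ⟨i, hi⟩ := hcon x
    rw [Fintype.sum_option]
    have hsplit : ∑ i, v x (some i) = v x (some i) + ∑ i' ∈ univ.erase i, v x (some i') :=
      (add_sum_erase _ _ (mem_univ i)).symm
    rw [hsplit, ← add_assoc]
    refine (norm_add_le _ _).trans (add_le_add ?_ ?_)
    · have hv0 : v x none = 1 := by simp [v, w, d]
      rw [hv0]
      have hvi : ‖v x (some i)‖ = 1 := hvn x (some i)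
      have hdist : ε ≤ ‖(1 : ℂ) - v x (some i)‖ := by
        have h1 : (1 : ℂ) - v x (some i)
            = -((z i)⁻¹ : Circle) * ((Circle.exp (c i * x) : ℂ) - z i) := by
          have hz : (((z i)⁻¹ : Circle) : ℂ) * (z i : ℂ) = 1 := by
            rw [← Circle.coe_mul, inv_mul_cancel, Circle.coe_one]
          have : v x (some i) = ((z i)⁻¹ : Circle) * (Circle.exp (c i * x) : ℂ) := rfl
          rw [this]
          linear_combination -hz
        rw [h1, norm_mul, norm_neg, Circle.norm_coe, one_mul]
        exact hi
      have hpar : ‖(1 : ℂ) + v x (some i)‖ ^ 2 = 4 - ‖(1 : ℂ) - v x (some i)‖ ^ 2 := by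
        have := parallelogram_law_with_norm ℝ (1 : ℂ) (v x (some i))
        rw [hvi, norm_one] at this
        nlinarith
      rw [hρ]
      refine Real.le_sqrt_of_sq_le ?_
      rw [hpar]
      nlinarith
    · refine (norm_sum_le _ _).trans ?_
      have : ∀ i' ∈ univ.erase i, ‖v x (some i')‖ ≤ 1 := by
        intro i' _
        exact (hvn x (some i')).le
      refine (sum_le_card_nsmul _ _ _ this).trans ?_
      rw [card_erase_of_mem (mem_univ i), nsmul_eq_mul, mul_one, card_univ, ← hk,
        Nat.cast_sub hkpos, Nat.cast_one]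
  set R : ℝ := ρ + (k - 1) with hR
  have hk1 : (1 : ℝ) ≤ k := by exact_mod_cast hkpos
  have hR0 : 0 ≤ R := by rw [hR]; linarith
  have hRk : R < k + 1 := by rw [hR]; linarith
  -- multinomial expansion
  have hmain : ∀ p : ℕ, ((k : ℝ) + 1) ^ p ≤ ((p : ℝ) + 1) ^ (k + 1) * R ^ p := by
    intro p
    let P : Finset (Option ι → ℕ) := piAntidiag univ p
    let lam : (Option ι → ℕ) → ℝ := fun m => ∑ j, (m j : ℝ) * d j
    let A : (Option ι → ℕ) → ℂ := fun m => (Nat.multinomial univ m : ℂ) * ∏ j, (w j : ℂ) ^ m j
    have hAnorm : ∀ m, ‖A m‖ = Nat.multinomial univ m := by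
      intro m
      simp only [A]
      rw [norm_mul, norm_prod]
      have : ∀ j, ‖(w j : ℂ) ^ m j‖ = 1 := fun j => by rw [norm_pow, Circle.norm_coe, one_pow]
      simp only [this, prod_const_one, mul_one]
      simp
    have hexp : ∀ x, (∑ j, v x j) ^ p = ∑ m ∈ P, A m * Circle.exp (lam m * x) := by
      intro x
      rw [sum_pow_eq_sum_piAntidiag]
      refine sum_congr rfl fun m _ => ?_
      simp only [A, v, mul_pow, prod_mul_distrib]
      rw [mul_assoc]
      congr 2
      have : (Circle.exp (lam m * x) : ℂ) = ∏ j, (Circle.exp (d j * x) : ℂ) ^ m j := by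
        have h1 : Circle.exp (lam m * x) = ∏ j, Circle.exp (d j * x) ^ m j := by
          have h2 : lam m * x = ∑ j, (m j : ℝ) * (d j * x) := by
            simp only [lam, sum_mul, mul_assoc]
          rw [h2]
          have h3 : ∀ s : Finset (Option ι), Circle.exp (∑ j ∈ s, (m j : ℝ) * (d j * x))
              = ∏ j ∈ s, Circle.exp (d j * x) ^ m j := by
            intro s
            induction s using Finset.induction_on with
            | empty => simp
            | insert a s ha ih =>
              rw [sum_insert ha, prod_insert ha, Circle.exp_add, ih, Circle.exp_natCast_mul]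
          exact h3 univ
        rw [h1]
        have h4 := map_prod Circle.coeHom (fun j => Circle.exp (d j * x) ^ m j) univ
        simp only [map_pow] at h4
        exact h4
      rw [this]
    have hinj : ∀ m ∈ P, ∀ m' ∈ P, lam m = lam m' → m = m' := by
      intro m hm m' hm' h
      have h1 : ∑ i, (((m (some i) : ℤ) - (m' (some i) : ℤ) : ℤ) : ℝ) * c i = 0 := by
        have h2 : lam m - lam m' = 0 := sub_eq_zero.2 h
        simp only [lam, Fintype.sum_option] at h2
        simp only [d, Option.elim_none, Option.elim_some, mul_zero, zero_add] at h2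
        rw [← sum_sub_distrib] at h2
        rw [← h2]
        refine sum_congr rfl fun i _ => ?_
        push_cast
        ring
      have h3 := hc _ h1
      have h4 : ∀ i, m (some i) = m' (some i) := by
        intro i
        have := congrFun h3 i
        simp only [Pi.zero_apply] at this
        omega
      have hs : ∑ j, m j = p := (mem_piAntidiag.1 hm).1
      have hs' : ∑ j, m' j = p := (mem_piAntidiag.1 hm').1
      rw [Fintype.sum_option] at hs hs'
      have h5 : ∑ i, m (some i) = ∑ i, m' (some i) := sum_congr rfl fun i _ => h4 i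
      funext j
      cases j with
      | none => omega
      | some i => exact h4 i
    have hcoef : ∀ m ∈ P, (Nat.multinomial univ m : ℝ) ≤ R ^ p := by
      intro m hm
      rw [← hAnorm]
      refine coeff_le lam m (R ^ p) (P.erase m) (notMem_erase _ _) ?_ A ?_
      · intro m' hm' h
        exact (mem_erase.1 hm').1 (hinj m' (mem_erase.1 hm').2 m hm h)
      · intro x
        rw [add_sum_erase P (fun m => A m * (Circle.exp (lam m * x) : ℂ)) hm, ← hexp x, norm_pow]
        exact pow_le_pow_left₀ (norm_nonneg _) (hF x) p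
    have hsum : ((k : ℝ) + 1) ^ p = ∑ m ∈ P, (Nat.multinomial univ m : ℝ) := by
      have h1 := sum_pow_eq_sum_piAntidiag (univ : Finset (Option ι)) (fun _ => (1 : ℝ)) p
      simp only [sum_const, card_univ, Fintype.card_option, nsmul_eq_mul, mul_one, one_pow,
        prod_const_one] at h1
      push_cast at h1
      rw [← hk] at h1
      exact h1
    have hcard : (#P : ℝ) ≤ ((p : ℝ) + 1) ^ (k + 1) := by
      have hsub : P ⊆ Fintype.piFinset fun _ : Option ι => range (p + 1) := by
        intro m hm
        rw [Fintype.mem_piFinset]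
        intro j
        rw [mem_range, Nat.lt_succ_iff, ← (mem_piAntidiag.1 hm).1]
        exact single_le_sum (f := m) (fun _ _ => Nat.zero_le _) (mem_univ j)
      have := card_le_card hsub
      rw [Fintype.card_piFinset, prod_const, card_univ, card_range, Fintype.card_option,
        ← hk] at this
      exact_mod_cast this
    rw [hsum]
    refine (sum_le_card_nsmul _ _ _ hcoef).trans ?_
    rw [nsmul_eq_mul]
    exact mul_le_mul_of_nonneg_right hcard (pow_nonneg hR0 p)
  -- asymptotics
  have hr1 : |R / (k + 1)| < 1 := by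
    rw [abs_of_nonneg (by positivity), div_lt_one (by positivity)]
    exact hRk
  have hlim := tendsto_pow_const_mul_const_pow_of_abs_lt_one (k + 1) hr1
  have hlim2 : Filter.Tendsto (fun p : ℕ => ((p : ℝ) + 1) ^ (k + 1) * (R / (k + 1)) ^ p)
      Filter.atTop (nhds 0) := by
    by_cases hRz : R = 0
    · refine tendsto_const_nhds.congr' ?_
      filter_upwards [Filter.eventually_gt_atTop 0] with p hp
      rw [hRz, zero_div, zero_pow hp.ne', mul_zero]
    · have h1 := (hlim.comp (Filter.tendsto_add_atTop_nat 1)).const_mul ((R / (k + 1))⁻¹)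
      rw [mul_zero] at h1
      refine h1.congr fun p => ?_
      have hne : R / (k + 1) ≠ 0 := div_ne_zero hRz (by positivity)
      simp only [Function.comp_apply]
      push_cast
      rw [pow_succ (R / (k + 1)) p]
      field_simp
  have hge : ∀ p : ℕ, (1 : ℝ) ≤ ((p : ℝ) + 1) ^ (k + 1) * (R / (k + 1)) ^ p := by
    intro p
    rw [div_pow, mul_div_assoc', le_div_iff₀ (by positivity), one_mul]
    exact hmain p
  have := ge_of_tendsto' hlim2 hge
  linarith

end Pool.Agent.P41eeb1
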