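import Mathlib
import Pool.Agent.Lib.P41eeb1.Kronecker

set_option autoImplicit false

open TopologicalSpace Set

namespace Pool.Agent.P41eeb1

/-- There are two uncountable rationally independent families of reals. -/
theorem exists_family : ∃ (I : Type) (_ : Uncountable I) (b s : I → ℝ),
    LinearIndependent ℤ b ∧ LinearIndependent ℤ s ∧ ∀ i, |s i| ≤ 1 / 4 := by
  classical
  let B := Module.Basis.ofVectorSpace ℚ ℝ
  have hunc : Uncountable (Module.Basis.ofVectorSpaceIndex ℚ ℝ) := by
    rw [← Cardinal.aleph0_lt_mk_iff]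
    have h1 := B.mk_eq_rank''
    rw [Real.rank_rat_real] at h1
    rw [h1]
    exact Cardinal.aleph0_lt_continuum
  have hN : ∀ i, ∃ n : ℕ, 0 < n ∧ |B i| ≤ (n : ℝ) := by
    intro i
    obtain ⟨n, hn⟩ := exists_nat_gt |B i|
    exact ⟨n, by exact_mod_cast (abs_nonneg _).trans_lt hn, hn.le⟩
  choose N hN0 hN1 using hN
  have hb : LinearIndependent ℤ (fun i => B i) := by
    have := B.linearIndependent
    exact this.restrict_scalars (by
      intro a b h
      simpa using h)
  refine ⟨Module.Basis.ofVectorSpaceIndex ℚ ℝ, hunc, fun i => B i,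
    fun i => (B i) / (4 * N i), hb, ?_, ?_⟩
  · have h2 : LinearIndependent ℚ (fun i => (B i) / (4 * N i)) := by
      have h3 := B.linearIndependent.units_smul
        (fun i => Units.mk0 ((1 : ℚ) / (4 * N i)) (by
          have := hN0 i
          positivity))
      have h5 : (fun i => (B i) / (4 * N i)) = ((fun i => Units.mk0 ((1 : ℚ) / (4 * N i)) (by
          have := hN0 i
          positivity)) • (B : Module.Basis.ofVectorSpaceIndex ℚ ℝ → ℝ)) := by
        funext i
        simp only [Pi.smul_apply', Units.smul_mk0, one_div]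
        rw [Rat.smul_def]
        push_cast
        rw [div_eq_inv_mul]
      rw [h5]
      exact h3
    exact h2.restrict_scalars (by
      intro a b h
      simpa using h)
  · intro i
    have h4 : (0 : ℝ) < N i := by exact_mod_cast hN0 i
    rw [abs_div, abs_of_pos (by positivity : (0 : ℝ) < 4 * N i), div_le_div_iff₀ (by positivity) (by norm_num)]
    nlinarith [hN1 i]

section
variable {I : Type} (b s : I → ℝ)

/-- The embedding of the free abelian group in the reals. -/
noncomputable def phi : (I →₀ ℤ) →+ ℝ := (Finsupp.linearCombination ℤ b).toAddMonoidHom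

/-- The real angle of the `i`-th character. -/
noncomputable def ang (i : I) : (I →₀ ℤ) →+ ℝ :=
  (AddMonoidHom.mulLeft (2 * Real.pi * s i)).comp (phi b) +
    (AddMonoidHom.mulLeft Real.pi).comp ((Int.castAddHom ℝ).comp (Finsupp.applyAddHom i))

theorem ang_apply (i : I) (e : I →₀ ℤ) :
    ang b s i e = 2 * Real.pi * s i * phi b e + Real.pi * (e i : ℝ) := rfl

/-- The homomorphism into the power of the circle. -/
noncomputable def emb : Multiplicative (I →₀ ℤ) →* (I → Circle) where
  toFun e := fun i => Circle.exp (ang b s i e.toAdd)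
  map_one' := by
    funext i
    simp
  map_mul' x y := by
    funext i
    simp [Circle.exp_add]

theorem emb_apply (e : Multiplicative (I →₀ ℤ)) (i : I) :
    emb b s e i = Circle.exp (2 * Real.pi * s i * phi b e.toAdd + Real.pi * (e.toAdd i : ℝ)) := rfl

theorem emb_sq (e : Multiplicative (I →₀ ℤ)) (i : I) :
    (emb b s e i) ^ 2 = Circle.exp (4 * Real.pi * s i * phi b e.toAdd) := by
  rw [emb_apply, ← Circle.exp_natCast_mul]
  have : ((2 : ℕ) : ℝ) * (2 * Real.pi * s i * phi b e.toAdd + Real.pi * (e.toAdd i : ℝ))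
      = 4 * Real.pi * s i * phi b e.toAdd + (e.toAdd i : ℝ) * (2 * Real.pi) := by
    push_cast
    ring
  rw [this, Circle.exp_add, Circle.exp_int_mul_two_pi, mul_one]

theorem phi_inj (hb : LinearIndependent ℤ b) : Function.Injective (phi b) := hb

theorem eq_zero_of_exp [Uncountable I] (hs : LinearIndependent ℤ s) (r : ℝ)
    (h : ∀ i, Circle.exp (4 * Real.pi * s i * r) = 1) : r = 0 := by
  by_contra hr
  have h1 : ∀ i, ∃ n : ℤ, 2 * s i * r = n := by
    intro i
    obtain ⟨n, hn⟩ := Circle.exp_eq_one.1 (h i)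
    refine ⟨n, ?_⟩
    have hpi := Real.pi_pos
    have : (2 * Real.pi) * (2 * s i * r) = (2 * Real.pi) * n := by linarith
    exact mul_left_cancel₀ (by positivity) this
  choose n hn using h1
  have hinj : Function.Injective n := by
    intro i j hij
    apply hs.injective
    have h2 : 2 * s i * r = 2 * s j * r := by rw [hn, hn, hij]
    have h3 : (2 * r) * s i = (2 * r) * s j := by linarith
    exact mul_left_cancel₀ (by simpa using hr) h3
  have := hinj.countable
  exact not_countable (α := I) this

theorem emb_inj [Uncountable I] (hb : LinearIndependent ℤ b) (hs : LinearIndependent ℤ s) :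
    Function.Injective (emb b s) := by
  rw [injective_iff_map_eq_one]
  intro e he
  have h1 : phi b e.toAdd = 0 := by
    apply eq_zero_of_exp s hs
    intro i
    rw [← emb_sq b s e i, he]
    simp
  have h2 : e.toAdd = 0 := phi_inj b hb (by rw [h1, map_zero])
  exact h2

/-- density of the image of a rank two subgroup -/
theorem dense_pair (hs : LinearIndependent ℤ s) (x y : Multiplicative (I →₀ ℤ))
    (hxy : Irrational (phi b x.toAdd / phi b y.toAdd)) :
    DenseRange (fun p : ℤ × ℤ => emb b s ((x ^ p.1 * y ^ p.2) ^ 2)) := by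
  classical
  rw [DenseRange, dense_iff_inter_open]
  intro U hU hne
  obtain ⟨z, hz⟩ := hne
  rw [isOpen_pi_iff] at hU
  obtain ⟨J, u, hu, hJU⟩ := hU z hz
  have h1 : ∀ i ∈ J, ∃ ε > 0, Metric.ball (z i) ε ⊆ u i := fun i hi =>
    Metric.isOpen_iff.1 (hu i hi).1 _ (hu i hi).2
  choose! ε hε0 hεu using h1
  obtain ⟨δ, hδ0, hδ⟩ : ∃ δ > 0, ∀ i ∈ J, δ ≤ ε i := by
    by_cases hJ : J.Nonempty
    · refine ⟨J.inf' hJ ε, ?_, fun i hi => Finset.inf'_le _ hi⟩
      obtain ⟨i, hi, hi2⟩ := Finset.exists_mem_eq_inf' hJ ε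
      rw [hi2]
      exact hε0 i hi
    · exact ⟨1, one_pos, fun i hi => absurd ⟨i, hi⟩ hJ⟩
  obtain ⟨r, hr⟩ := kronecker (ι := J) (fun i => 4 * Real.pi * s i) (by
    intro m hm
    have h2 : ∑ i : J, (m i : ℝ) * s i = 0 := by
      have h3 : (4 * Real.pi) * ∑ i : J, (m i : ℝ) * s i = 0 := by
        rw [Finset.mul_sum, ← hm]
        refine Finset.sum_congr rfl fun i _ => ?_
        ring
      have hpi := Real.pi_pos
      exact (mul_eq_zero.1 h3).resolve_left (by positivity)
    have h4 : LinearIndependent ℤ (fun i : J => s i) := hs.comp _ Subtype.val_injective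
    rw [Fintype.linearIndependent_iff] at h4
    funext i
    refine h4 m ?_ i
    simpa [zsmul_eq_mul] using h2) (fun i => z i) δ hδ0
  -- open set of good reals
  let V : Set ℝ := {t | ∀ i : J, ‖(Circle.exp (4 * Real.pi * s i * t) : ℂ) - z i‖ < δ}
  have hV : IsOpen V := by
    have : V = ⋂ i : J, {t : ℝ | ‖(Circle.exp (4 * Real.pi * s i * t) : ℂ) - z i‖ < δ} := by
      ext t; simp [V]
    rw [this]
    refine isOpen_iInter_of_finite fun i => isOpen_lt ?_ continuous_const
    fun_prop
  have hd := (dense_addSubgroupClosure_pair_iff.2 hxy : Dense _)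
  obtain ⟨t, htV, ht⟩ := hd.inter_open_nonempty V hV ⟨r, hr⟩
  rw [SetLike.mem_coe, AddSubgroup.mem_closure_pair] at ht
  obtain ⟨p, q, hpq⟩ := ht
  refine ⟨_, hJU ?_, ⟨(p, q), rfl⟩⟩
  intro i hi
  apply hεu i hi
  rw [Metric.mem_ball]
  refine lt_of_lt_of_le ?_ (hδ i hi)
  show dist (emb b s ((x ^ p * y ^ q) ^ 2) i) (z i) < δ
  rw [map_pow, Pi.pow_apply, emb_sq]
  have h5 : phi b (x ^ p * y ^ q).toAdd = t := by
    rw [← hpq]
    simp
  rw [h5]
  change dist ((Circle.exp (4 * Real.pi * s i * t) : Circle) : ℂ) (z i : ℂ) < δ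
  rw [dist_eq_norm]
  exact htV ⟨i, hi⟩

/-- every subgroup of the range is separable -/
theorem sep_sub [Uncountable I] (hb : LinearIndependent ℤ b) (hs : LinearIndependent ℤ s)
    (K : Subgroup (emb b s).range) : SeparableSpace K := by
  classical
  by_cases hex : ∃ x y : Multiplicative (I →₀ ℤ),
      (⟨emb b s x, ⟨x, rfl⟩⟩ : (emb b s).range) ∈ K ∧
      (⟨emb b s y, ⟨y, rfl⟩⟩ : (emb b s).range) ∈ K ∧
      Irrational (phi b x.toAdd / phi b y.toAdd)
  · obtain ⟨x, y, hx, hy, hxy⟩ := hex
    have hd := dense_pair b s hs x y hxy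
    have hmem : ∀ p : ℤ × ℤ, (⟨emb b s ((x ^ p.1 * y ^ p.2) ^ 2), ⟨_, rfl⟩⟩ : (emb b s).range) ∈ K := by
      intro p
      have h1 : (⟨emb b s ((x ^ p.1 * y ^ p.2) ^ 2), ⟨_, rfl⟩⟩ : (emb b s).range)
          = ((⟨emb b s x, ⟨x, rfl⟩⟩ : (emb b s).range) ^ p.1
            * (⟨emb b s y, ⟨y, rfl⟩⟩ : (emb b s).range) ^ p.2) ^ 2 := by
        apply Subtype.ext
        simp
      rw [h1]
      exact K.pow_mem (K.mul_mem (K.zpow_mem hx _) (K.zpow_mem hy _)) _
    let g : ℤ × ℤ → K := fun p => ⟨_, hmem p⟩
    have hg : DenseRange g := by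
      intro k
      rw [Topology.IsInducing.subtypeVal.closure_eq_preimage_closure_image,
        Topology.IsInducing.subtypeVal.closure_eq_preimage_closure_image]
      have h2 : (Subtype.val '' (Subtype.val '' (range g)) : Set (I → Circle))
          = range (fun p : ℤ × ℤ => emb b s ((x ^ p.1 * y ^ p.2) ^ 2)) := by
        rw [← range_comp, ← range_comp]
        rfl
      show (k : (emb b s).range).1 ∈ closure (Subtype.val '' (Subtype.val '' (range g)))
      rw [h2]
      exact hd _
    exact ⟨range g, countable_range g, hg⟩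
  · push Not at hex
    have hcount : Countable K := by
      by_cases htriv : ∃ y : Multiplicative (I →₀ ℤ),
          (⟨emb b s y, ⟨y, rfl⟩⟩ : (emb b s).range) ∈ K ∧ phi b y.toAdd ≠ 0
      · obtain ⟨y, hy, hy0⟩ := htriv
        have h1 : ∀ k : K, ∃ q : ℚ, ∃ x : Multiplicative (I →₀ ℤ), emb b s x = k.1.1 ∧
            phi b x.toAdd / phi b y.toAdd = q := by
          rintro ⟨⟨_, ⟨x, rfl⟩⟩, hk⟩
          have := hex x y hk hy
          rw [Irrational, not_not] at this
          obtain ⟨q, hq⟩ := this
          exact ⟨q, x, rfl, hq.symm⟩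
        choose q x hx hq using h1
        have hinj : Function.Injective q := by
          intro k k' h
          have h2 : phi b (x k).toAdd = phi b (x k').toAdd := by
            have h3 : phi b (x k).toAdd / phi b y.toAdd = phi b (x k').toAdd / phi b y.toAdd := by
              rw [hq, hq, h]
            exact (div_left_inj' hy0).1 h3
          have h4 : (x k).toAdd = (x k').toAdd := phi_inj b hb h2
          have h5 : x k = x k' := h4
          apply Subtype.ext
          apply Subtype.ext
          rw [← hx, ← hx, h5]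
        exact hinj.countable
      · push Not at htriv
        have : Subsingleton K := by
          constructor
          rintro ⟨⟨_, ⟨x, rfl⟩⟩, hk⟩ ⟨⟨_, ⟨x', rfl⟩⟩, hk'⟩
          have h1 := htriv x hk
          have h2 := htriv x' hk'
          have h3 : x.toAdd = x'.toAdd := phi_inj b hb (by rw [h1, h2])
          have h4 : x = x' := h3
          subst h4
          rfl
        exact Finite.to_countable
    infer_instance

/-- The homomorphism whose range is the closed nonseparable subgroup. -/
noncomputable def gr : Multiplicative (I →₀ ℤ) →* Multiplicative ℝ × (emb b s).range :=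
  MonoidHom.prod (AddMonoidHom.toMultiplicative (phi b)) (emb b s).rangeRestrict

theorem closed_gr [Uncountable I] (hs : LinearIndependent ℤ s) :
    IsClosed ((gr b s).range : Set (Multiplicative ℝ × (emb b s).range)) := by
  have h1 : ((gr b s).range : Set (Multiplicative ℝ × (emb b s).range))
      = ⋂ i, {p | Circle.exp (4 * Real.pi * s i * p.1.toAdd) = (p.2.1 i) ^ 2} := by
    ext p
    simp only [SetLike.mem_coe, mem_iInter]
    constructor
    · rintro ⟨e, rfl⟩ i
      exact (emb_sq b s e i).symm
    · obtain ⟨r, ⟨_, ⟨e, rfl⟩⟩⟩ := p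
      intro h
      have h2 : r.toAdd - phi b e.toAdd = 0 := by
        apply eq_zero_of_exp s hs
        intro i
        have h3 : Circle.exp (4 * Real.pi * s i * r.toAdd) = (emb b s e i) ^ 2 := h i
        rw [mul_sub, Circle.exp_sub, h3, emb_sq, div_self']
      refine ⟨e, ?_⟩
      apply Prod.ext
      · show Multiplicative.ofAdd (phi b e.toAdd) = r
        rw [← sub_eq_zero.1 h2]
        rfl
      · rfl
  rw [h1]
  refine isClosed_iInter fun i => isClosed_eq ?_ ?_
  · have : Continuous (fun p : Multiplicative ℝ × (emb b s).range => p.1.toAdd) :=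
      continuous_toAdd.comp continuous_fst
    exact Circle.exp.continuous.comp (continuous_const.mul this)
  · exact ((continuous_apply i).comp (continuous_subtype_val.comp continuous_snd)).pow 2

theorem not_sep_gr [Uncountable I] (hs4 : ∀ i, |s i| ≤ 1 / 4) :
    ¬ SeparableSpace (gr b s).range := by
  classical
  intro hsep
  obtain ⟨D, hDc, hDd⟩ := exists_countable_dense (gr b s).range
  have hch : ∀ d : (gr b s).range, ∃ e : Multiplicative (I →₀ ℤ), gr b s e = d.1 := fun d => d.2
  choose E hE using hch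
  have hcount : (⋃ d ∈ D, ((E d).toAdd.support : Set I)).Countable :=
    hDc.biUnion fun d _ => (E d).toAdd.support.countable_toSet
  obtain ⟨i, hi⟩ : ∃ i, i ∉ ⋃ d ∈ D, ((E d).toAdd.support : Set I) := by
    by_contra hcon
    push Not at hcon
    have : (univ : Set I).Countable := hcount.mono fun i _ => hcon i
    exact not_countable_univ this
  let e0 : Multiplicative (I →₀ ℤ) := Multiplicative.ofAdd (Finsupp.single i 1)
  have hphi0 : phi b e0.toAdd = b i := by
    show (Finsupp.linearCombination ℤ b) (Finsupp.single i 1) = b i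
    rw [Finsupp.linearCombination_single, one_smul]
  let O : Set (gr b s).range := {p | |p.1.1.toAdd - b i| < 1 ∧
    ‖((p.1.2.1 i : Circle) : ℂ) - (emb b s e0 i : Circle)‖ < 1}
  have hO : IsOpen O := by
    have h1 : Continuous (fun p : (gr b s).range => p.1.1.toAdd) :=
      continuous_toAdd.comp (continuous_fst.comp continuous_subtype_val)
    have h2 : Continuous (fun p : (gr b s).range => ((p.1.2.1 i : Circle) : ℂ)) :=
      continuous_subtype_val.comp ((continuous_apply i).comp
        (continuous_subtype_val.comp (continuous_snd.comp continuous_subtype_val)))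
    exact (isOpen_lt ((h1.sub continuous_const).abs) continuous_const).inter
      (isOpen_lt ((h2.sub continuous_const).norm) continuous_const)
  have hne : O.Nonempty := by
    refine ⟨⟨gr b s e0, ⟨e0, rfl⟩⟩, ?_, ?_⟩
    · show |phi b e0.toAdd - b i| < 1
      rw [hphi0]
      simp
    · show ‖((emb b s e0 i : Circle) : ℂ) - (emb b s e0 i : Circle)‖ < 1
      simp
  obtain ⟨d, hdO, hdD⟩ := hDd.inter_open_nonempty O hO hne
  have hid : (E d).toAdd i = 0 := by
    by_contra h
    apply hi
    refine mem_iUnion₂.2 ⟨d, hdD, ?_⟩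
    simpa using h
  obtain ⟨h1, h2⟩ := hdO
  rw [← hE d] at h1 h2
  change |phi b (E d).toAdd - b i| < 1 at h1
  change ‖((emb b s (E d) i : Circle) : ℂ) - (emb b s e0 i : Circle)‖ < 1 at h2
  rw [emb_apply, emb_apply, hid, hphi0] at h2
  have h3 : (e0.toAdd i : ℝ) = 1 := by
    show (((Finsupp.single i (1 : ℤ)) i : ℤ) : ℝ) = 1
    simp
  rw [h3, Int.cast_zero, mul_zero, add_zero, mul_one] at h2
  set u : ℝ := 2 * Real.pi * s i * phi b (E d).toAdd
  set v : ℝ := 2 * Real.pi * s i * b i
  have h4 : (Circle.exp u : ℂ) - Circle.exp (v + Real.pi)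
      = Circle.exp v * (1 + Circle.exp (u - v)) := by
    have h5 : (Circle.exp (v + Real.pi) : ℂ) = - Circle.exp v := by
      rw [Circle.exp_add, Circle.coe_mul, Circle.coe_exp Real.pi, Complex.exp_pi_mul_I]
      ring
    have h6 : (Circle.exp u : ℂ) = Circle.exp v * Circle.exp (u - v) := by
      rw [← Circle.coe_mul, ← Circle.exp_add]
      congr 2
      ring
    rw [h5, h6]
    ring
  rw [h4, norm_mul, Circle.norm_coe, one_mul] at h2
  have h7 : |u - v| ≤ Real.pi / 2 := by
    have h8 : u - v = 2 * Real.pi * (s i * (phi b (E d).toAdd - b i)) := by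
      simp only [u, v]; ring
    rw [h8, abs_mul, abs_of_pos (by positivity : 0 < 2 * Real.pi), abs_mul]
    have h9 : |s i| * |phi b (E d).toAdd - b i| ≤ 1 / 4 * 1 :=
      mul_le_mul (hs4 i) h1.le (abs_nonneg _) (by norm_num)
    nlinarith [Real.pi_pos]
  have h10 : 0 ≤ Real.cos (u - v) :=
    Real.cos_nonneg_of_neg_pi_div_two_le_of_le (by linarith [(abs_le.1 h7).1]) (abs_le.1 h7).2
  have h11 : (1 + (Circle.exp (u - v) : ℂ)).re = 1 + Real.cos (u - v) := by
    rw [Circle.coe_exp, Complex.add_re, Complex.one_re, Complex.exp_ofReal_mul_I_re]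
  have h12 := Complex.re_le_norm (1 + (Circle.exp (u - v) : ℂ))
  rw [h11] at h12
  linarith

end

end Pool.Agent.P41eeb1
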