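import Mathlib
import Pool.Agent.Lib.P41eeb1.Main

set_option autoImplicit false

open TopologicalSpace Set

namespace Pool.Agent.P41eeb1

/-- In an uncountable subgroup of the reals there are two uncountable independent families. -/
theorem exists_family_in (R : AddSubgroup ℝ) (hR : ¬ (R : Set ℝ).Countable) :
    ∃ (I : Type) (_ : Uncountable I) (b s : I → ℝ), (∀ i, b i ∈ R) ∧
    LinearIndependent ℤ b ∧ LinearIndependent ℤ s ∧ ∀ i, |s i| ≤ 1 / 4 := by
  classical
  obtain ⟨B, hB1, hB2, hB3⟩ := exists_linearIndependent ℚ (R : Set ℝ)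
  have hunc : Uncountable B := by
    rw [← not_countable_iff]
    intro hc
    apply hR
    have h1 : Countable (Submodule.span ℚ (Set.range (Subtype.val : B → ℝ))) := inferInstance
    rw [Subtype.range_coe] at h1
    rw [hB2] at h1
    have h2 : (Submodule.span ℚ (R : Set ℝ) : Set ℝ).Countable := h1
    exact h2.mono Submodule.subset_span
  have hN : ∀ i : B, ∃ n : ℕ, 0 < n ∧ |(i : ℝ)| ≤ (n : ℝ) := by
    intro i
    obtain ⟨n, hn⟩ := exists_nat_gt |(i : ℝ)|
    exact ⟨n, by exact_mod_cast (abs_nonneg _).trans_lt hn, hn.le⟩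
  choose N hN0 hN1 using hN
  refine ⟨B, hunc, fun i => (i : ℝ), fun i => (i : ℝ) / (4 * N i), fun i => hB1 i.2, ?_, ?_, ?_⟩
  · exact hB3.restrict_scalars (by
      intro a b h
      simpa using h)
  · have h2 : LinearIndependent ℚ (fun i : B => (i : ℝ) / (4 * N i)) := by
      have h3 := hB3.units_smul
        (fun i => Units.mk0 ((1 : ℚ) / (4 * N i)) (by
          have := hN0 i
          positivity))
      have h5 : (fun i : B => (i : ℝ) / (4 * N i)) =
          ((fun i => Units.mk0 ((1 : ℚ) / (4 * N i)) (by
            have := hN0 i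
            positivity)) • (Subtype.val : B → ℝ)) := by
        funext i
        simp only [Pi.smul_apply', Units.smul_mk0, one_div]
        rw [Rat.smul_def]
        push_cast
        rw [div_eq_inv_mul]
      rw [h5]
      exact h3
    exact h2.restrict_scalars (by
      intro a b h
      simpa using h)
  · intro i
    have h4 : (0 : ℝ) < N i := by exact_mod_cast hN0 i
    rw [abs_div, abs_of_pos (by positivity : (0 : ℝ) < 4 * N i), div_le_div_iff₀ (by positivity) (by norm_num)]
    nlinarith [hN1 i]

theorem phi_mem {I : Type} (b : I → ℝ) (R : AddSubgroup ℝ) (hb : ∀ i, b i ∈ R) (e : I →₀ ℤ) :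
    phi b e ∈ R := by
  show (Finsupp.linearCombination ℤ b) e ∈ R
  rw [Finsupp.linearCombination_apply]
  exact AddSubgroup.sum_mem _ fun i _ => R.zsmul_mem (hb i) _

universe u

theorem main_gen (G : Type u) [TopologicalSpace G] [Group G] [IsTopologicalGroup G]
    (M : Subgroup G) (hM : IsClosed (M : Set G)) (f : M →* Multiplicative ℝ)
    (hf : Continuous f) (hu : ¬ (Set.range f).Countable) :
    ∃ (I : Type) (H : Subgroup (I → Circle)), (∀ K : Subgroup H, SeparableSpace K) ∧
      ∃ L : Subgroup (G × H), IsClosed (L : Set (G × H)) ∧ ¬ SeparableSpace L := by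
  classical
  let R : AddSubgroup ℝ := f.range.toAddSubgroup'
  have hR : ¬ (R : Set ℝ).Countable := hu
  obtain ⟨I, hI, b, s, hbR, hb, hs, hs4⟩ := exists_family_in R hR
  refine ⟨I, (emb b s).range, fun K => sep_sub b s hb hs K, ?_⟩
  let F : M × (emb b s).range →* Multiplicative ℝ × (emb b s).range :=
    f.prodMap (MonoidHom.id _)
  have hF : Continuous F := (hf.comp continuous_fst).prodMk continuous_snd
  let L0 : Subgroup (M × (emb b s).range) := (gr b s).range.comap F
  have hL0 : IsClosed (L0 : Set (M × (emb b s).range)) := (closed_gr b s hs).preimage hF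
  let E : M × (emb b s).range →* G × (emb b s).range := M.subtype.prodMap (MonoidHom.id _)
  have hE : Topology.IsClosedEmbedding E :=
    (hM.isClosedEmbedding_subtypeVal).prodMap Topology.IsClosedEmbedding.id
  refine ⟨L0.map E, ?_, ?_⟩
  · rw [Subgroup.coe_map]
    exact hE.isClosedMap _ hL0
  · intro hsep
    have hpre : ∀ x : (L0.map E), ∃ y : L0, E y.1 = x.1 := by
      rintro ⟨x, y, hy, rfl⟩
      exact ⟨⟨y, hy⟩, rfl⟩
    choose q hq using hpre
    have hqc : Continuous q := by
      have h1 : Continuous (fun x => E (q x).1) := by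
        simp_rw [hq]
        exact continuous_subtype_val
      have h2 : Topology.IsInducing (fun y : L0 => E y.1) :=
        hE.isInducing.comp Topology.IsInducing.subtypeVal
      exact h2.continuous_iff.2 h1
    let g : L0 → (gr b s).range := fun y => ⟨F y.1, y.2⟩
    have hg : Continuous g := (hF.comp continuous_subtype_val).subtype_mk _
    have hsurj : Function.Surjective (g ∘ q) := by
      rintro ⟨_, ⟨e, rfl⟩⟩
      obtain ⟨m, hm⟩ : Multiplicative.ofAdd (phi b e.toAdd) ∈ f.range :=
        phi_mem b R hbR e.toAdd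
      let y : L0 := ⟨(m, (emb b s).rangeRestrict e), e, by
        apply Prod.ext
        · exact hm.symm
        · rfl⟩
      refine ⟨⟨E y.1, y.1, y.2, rfl⟩, ?_⟩
      have h3 : q ⟨E y.1, y.1, y.2, rfl⟩ = y := by
        apply Subtype.ext
        apply hE.injective
        exact hq _
      show g (q _) = _
      rw [h3]
      apply Subtype.ext
      apply Prod.ext
      · exact hm
      · rfl
    have := hsurj.denseRange.separableSpace (hg.comp hqc)
    exact not_sep_gr b s hs4 this

end Pool.Agent.P41eeb1
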